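import Mathlib

/-! # Great semicircles: the integral-geometric identity -/

set_option autoImplicit false
set_option maxHeartbeats 400000

open Real Set MeasureTheory ENNReal

namespace Pool.Agent.FC640.CS

/-- `√(1+w²)`. -/
noncomputable def q (w : ℝ) : ℝ := √(1 + w ^ 2)

lemma q_pos (w : ℝ) : 0 < q w := Real.sqrt_pos.2 (by positivity)

lemma q_sq (w : ℝ) : q w ^ 2 = 1 + w ^ 2 := Real.sq_sqrt (by positivity)

lemma one_le_q (w : ℝ) : 1 ≤ q w := by
  unfold q
  rw [Real.one_le_sqrt]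
  nlinarith [sq_nonneg w]

lemma continuous_q : Continuous q := by unfold q; fun_prop

/-- The length of a great semicircle. -/
lemma semicircle (r : ℝ) :
    ∫ φ in (0 : ℝ)..π, q r / (1 + r ^ 2 * Real.sin φ ^ 2) = π := by
  set c := q r with hc
  have hc1 : 1 ≤ c := one_le_q r
  have hc2 : c ^ 2 = 1 + r ^ 2 := q_sq r
  set D : ℝ → ℝ := fun φ => Real.cos φ ^ 2 + c * Real.sin φ ^ 2 with hD
  have hDpos : ∀ φ, 0 < D φ := by
    intro φ
    have h1 := Real.sin_sq_add_cos_sq φ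
    have h2 : D φ = 1 + (c - 1) * Real.sin φ ^ 2 := by simp only [hD]; linear_combination h1
    rw [h2]
    have := mul_nonneg (by linarith : (0 : ℝ) ≤ c - 1) (sq_nonneg (Real.sin φ))
    linarith
  set N : ℝ → ℝ := fun φ => (c - 1) * (Real.sin φ * Real.cos φ) with hN
  have hNd : ∀ φ, HasDerivAt N ((c - 1) * (Real.cos φ * Real.cos φ + Real.sin φ * -Real.sin φ)) φ :=
    fun φ => ((Real.hasDerivAt_sin φ).mul (Real.hasDerivAt_cos φ)).const_mul (c - 1)
  have hDd : ∀ φ, HasDerivAt D (2 * Real.cos φ * -Real.sin φ + c * (2 * Real.sin φ * Real.cos φ)) φ := by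
    intro φ
    have h1 := (Real.hasDerivAt_cos φ).pow 2
    have h2 := ((Real.hasDerivAt_sin φ).pow 2).const_mul c
    refine (h1.add h2).congr_deriv ?_
    norm_num
  have hG : ∀ φ, HasDerivAt (fun φ => φ + Real.arctan (N φ / D φ))
      (c / (1 + r ^ 2 * Real.sin φ ^ 2)) φ := by
    intro φ
    have h1 := ((hNd φ).div (hDd φ) (hDpos φ).ne').arctan
    refine ((hasDerivAt_id φ).add h1).congr_deriv ?_
    have hs := Real.sin_sq_add_cos_sq φ
    have hsc : Real.cos φ ^ 2 = 1 - Real.sin φ ^ 2 := by linarith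
    have h2 : D φ ^ 2 + N φ ^ 2 = 1 + r ^ 2 * Real.sin φ ^ 2 := by
      simp only [hD, hN]
      have : (Real.sin φ * Real.cos φ) ^ 2 = Real.sin φ ^ 2 * Real.cos φ ^ 2 := by ring
      rw [mul_pow, this, hsc]
      have hr : r ^ 2 = c ^ 2 - 1 := by linarith
      rw [hr]; ring
    have h3 : 0 < 1 + r ^ 2 * Real.sin φ ^ 2 := by positivity
    have hD0 := (hDpos φ).ne'
    have h4 : 1 + (N φ / D φ) ^ 2 = (1 + r ^ 2 * Real.sin φ ^ 2) / D φ ^ 2 := by
      rw [← h2]; field_simp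
    have h5 : ((c - 1) * (Real.cos φ * Real.cos φ + Real.sin φ * -Real.sin φ) * D φ
        - N φ * (2 * Real.cos φ * -Real.sin φ + c * (2 * Real.sin φ * Real.cos φ)))
        = c - (1 + r ^ 2 * Real.sin φ ^ 2) := by
      simp only [hD, hN]
      have hr : r ^ 2 = c ^ 2 - 1 := by linarith
      rw [hr]
      have e1 : (c - 1) * (Real.cos φ * Real.cos φ + Real.sin φ * -Real.sin φ) *
          (Real.cos φ ^ 2 + c * Real.sin φ ^ 2) - (c - 1) * (Real.sin φ * Real.cos φ) *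
          (2 * Real.cos φ * -Real.sin φ + c * (2 * Real.sin φ * Real.cos φ))
          = (c - 1) * ((Real.cos φ ^ 2 - Real.sin φ ^ 2) * (Real.cos φ ^ 2 + c * Real.sin φ ^ 2)
            - 2 * (c - 1) * (Real.sin φ ^ 2 * Real.cos φ ^ 2)) := by ring
      rw [e1, hsc]; ring
    have h6 : (N / D) φ = N φ / D φ := rfl
    rw [h5, h6, h4]
    field_simp
    ring
  have hcont : Continuous (fun φ => c / (1 + r ^ 2 * Real.sin φ ^ 2)) := by
    refine continuous_const.div (by fun_prop) fun φ => ?_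
    positivity
  rw [intervalIntegral.integral_eq_sub_of_hasDerivAt (fun φ _ => hG φ)
    (hcont.intervalIntegrable _ _)]
  simp [hN]

/-- The weight. -/
noncomputable def wt (d : ℕ) (w : ℝ) : ℝ≥0∞ := ENNReal.ofReal ((q w ^ d)⁻¹)

lemma measurable_wt (d : ℕ) : Measurable (wt d) :=
  ((continuous_q.pow d).measurable.inv).ennreal_ofReal

/-- The constant. -/
noncomputable def Cd (d : ℕ) : ℝ≥0∞ := ∫⁻ x : ℝ, wt (d + 1) x

lemma wt_le {d : ℕ} (hd : 2 ≤ d) (w : ℝ) : wt d w ≤ ENNReal.ofReal ((1 + w ^ 2)⁻¹) := by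
  apply ENNReal.ofReal_le_ofReal
  rw [← q_sq w]
  exact inv_anti₀ (pow_pos (q_pos w) 2) (pow_le_pow_right₀ (one_le_q w) hd)

lemma lint_finite : ∫⁻ x : ℝ, ENNReal.ofReal ((1 + x ^ 2)⁻¹) < ∞ := by
  have h := integrable_inv_one_add_sq.lintegral_lt_top
  exact h

lemma Cd_lt_top {d : ℕ} (hd : 1 ≤ d) : Cd d < ∞ :=
  (lintegral_mono fun x => wt_le (by omega) x).trans_lt lint_finite

lemma wt_pos (d : ℕ) (w : ℝ) : 0 < wt d w := ENNReal.ofReal_pos.2 (inv_pos.2 (pow_pos (q_pos w) d))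

lemma Cd_ne_zero (d : ℕ) : Cd d ≠ 0 := by
  intro h
  have h1 := (lintegral_eq_zero_iff (measurable_wt (d + 1))).1 h
  have h2 : (volume : Measure ℝ) = 0 := by
    rw [← Measure.measure_univ_eq_zero]
    have : (univ : Set ℝ) = {x | ¬ (wt (d + 1) x = (0 : ℝ → ℝ≥0∞) x)} := by
      ext x; simp [(wt_pos (d + 1) x).ne']
    rw [this]
    exact h1
  have h3 : (volume : Measure ℝ) (Icc 0 1) = 0 := by rw [h2]; simp
  rw [Real.volume_Icc] at h3
  norm_num at h3

/-- The inner integral. -/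
lemma inner_int (d : ℕ) (y : ℝ) :
    ∫⁻ x : ℝ, ENNReal.ofReal ((√(1 + x ^ 2 + y ^ 2) ^ (d + 1))⁻¹)
      = ENNReal.ofReal ((q y ^ d)⁻¹) * Cd d := by
  have hq := q_pos y
  have hmap := Real.smul_map_volume_mul_left (a := q y) hq.ne'
  have h1 : ∫⁻ x : ℝ, ENNReal.ofReal ((√(1 + x ^ 2 + y ^ 2) ^ (d + 1))⁻¹)
      = ∫⁻ x : ℝ, ENNReal.ofReal ((√(1 + x ^ 2 + y ^ 2) ^ (d + 1))⁻¹)
        ∂(ENNReal.ofReal |q y| • Measure.map (fun x => q y * x) volume) := by
    rw [hmap]
  rw [h1, lintegral_smul_measure, lintegral_map (by fun_prop) (by fun_prop)]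
  have h2 : ∀ x : ℝ, ENNReal.ofReal ((√(1 + (q y * x) ^ 2 + y ^ 2) ^ (d + 1))⁻¹)
      = ENNReal.ofReal ((q y ^ (d + 1))⁻¹) * wt (d + 1) x := by
    intro x
    have h3 : √(1 + (q y * x) ^ 2 + y ^ 2) = q y * q x := by
      have h4 : 1 + (q y * x) ^ 2 + y ^ 2 = (q y * q x) ^ 2 := by
        rw [mul_pow, mul_pow, q_sq, q_sq]; ring
      rw [h4, Real.sqrt_sq (mul_pos hq (q_pos x)).le]
    rw [h3, mul_pow, mul_inv, ENNReal.ofReal_mul (inv_pos.2 (pow_pos hq _)).le]
    rfl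
  simp only [h2]
  rw [lintegral_const_mul _ (measurable_wt _), smul_eq_mul, ← mul_assoc,
    ← ENNReal.ofReal_mul (abs_nonneg _), abs_of_pos hq]
  congr 2
  rw [pow_succ]
  field_simp

/-- The average of the lengths over all great semicircles. -/
theorem polar_identity (d : ℕ) {f : ℝ → ℝ≥0∞} (hf : Measurable f) :
    ∫⁻ r in Ioi (0 : ℝ), ENNReal.ofReal (r * (q r ^ (d + 2))⁻¹) *
      ∫⁻ φ in Ioo (0 : ℝ) π, f (r * Real.sin φ) *
        ENNReal.ofReal (q r / (1 + r ^ 2 * Real.sin φ ^ 2))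
      = Cd d * ∫⁻ w in Ioi (0 : ℝ), f w * wt (d + 2) w := by
  set F : ℝ × ℝ → ℝ≥0∞ := fun p => (Ioi (0 : ℝ)).indicator (fun y => f y *
    ENNReal.ofReal ((1 + y ^ 2)⁻¹)) p.2 * ENNReal.ofReal ((√(1 + p.1 ^ 2 + p.2 ^ 2) ^ (d + 1))⁻¹)
    with hF
  have hg : Measurable ((Ioi (0 : ℝ)).indicator (fun y => f y *
      ENNReal.ofReal ((1 + y ^ 2)⁻¹))) :=
    (hf.mul (by fun_prop)).indicator measurableSet_Ioi
  have hFm : Measurable F := (hg.comp measurable_snd).mul (by fun_prop)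
  have hpol := lintegral_comp_polarCoord_symm F
  -- Cartesian side
  have hcart : ∫⁻ p, F p = Cd d * ∫⁻ w in Ioi (0 : ℝ), f w * wt (d + 2) w := by
    rw [Measure.volume_eq_prod, lintegral_prod_symm _ hFm.aemeasurable]
    have h1 : ∀ y : ℝ, ∫⁻ x : ℝ, F (x, y) = (Ioi (0 : ℝ)).indicator (fun y => Cd d *
        (f y * wt (d + 2) y)) y := by
      intro y
      simp only [hF]
      rw [lintegral_const_mul _ (by fun_prop), inner_int]
      by_cases hy : y ∈ Ioi (0 : ℝ)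
      · rw [indicator_of_mem hy, indicator_of_mem hy]
        have h2 : ENNReal.ofReal ((1 + y ^ 2)⁻¹) * ENNReal.ofReal ((q y ^ d)⁻¹) = wt (d + 2) y := by
          rw [← ENNReal.ofReal_mul (by positivity)]
          unfold wt
          congr 1
          rw [← q_sq, ← mul_inv, ← pow_add, add_comm]
        calc f y * ENNReal.ofReal ((1 + y ^ 2)⁻¹) * (ENNReal.ofReal ((q y ^ d)⁻¹) * Cd d)
            = Cd d * (f y * (ENNReal.ofReal ((1 + y ^ 2)⁻¹) * ENNReal.ofReal ((q y ^ d)⁻¹))) := by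
              ring
          _ = _ := by rw [h2]
      · rw [indicator_of_notMem hy, indicator_of_notMem hy, zero_mul]
    simp only [h1]
    rw [lintegral_indicator measurableSet_Ioi,
      lintegral_const_mul _ (show Measurable (fun y => f y * wt (d + 2) y) from
        hf.mul (measurable_wt _))]
  rw [← hcart, ← hpol]
  -- polar side
  have htar : polarCoord.target = Ioi (0 : ℝ) ×ˢ Ioo (-π) π := rfl
  rw [htar, Measure.volume_eq_prod, ← Measure.prod_restrict]
  have hsymm : Continuous (fun p : ℝ × ℝ => polarCoord.symm p) := by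
    have : (fun p : ℝ × ℝ => polarCoord.symm p)
        = fun p : ℝ × ℝ => (p.1 * Real.cos p.2, p.1 * Real.sin p.2) := rfl
    rw [this]; fun_prop
  have hm : Measurable (fun p : ℝ × ℝ => ENNReal.ofReal p.1 • F (polarCoord.symm p)) :=
    (by fun_prop : Measurable (fun p : ℝ × ℝ => ENNReal.ofReal p.1)).smul
      (hFm.comp hsymm.measurable)
  rw [lintegral_prod _ hm.aemeasurable]
  refine setLIntegral_congr_fun measurableSet_Ioi fun r hr => ?_
  have hr0 : (0 : ℝ) < r := hr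
  simp only []
  rw [← lintegral_const_mul _ (by fun_prop)]
  have h2 : ∀ φ ∈ Ioo (-π) π, ENNReal.ofReal r • F (polarCoord.symm (r, φ))
      = (Ioo (0 : ℝ) π).indicator (fun φ => ENNReal.ofReal (r * (q r ^ (d + 2))⁻¹) *
        (f (r * Real.sin φ) * ENNReal.ofReal (q r / (1 + r ^ 2 * Real.sin φ ^ 2)))) φ := by
    intro φ hφ
    have e : polarCoord.symm (r, φ) = (r * Real.cos φ, r * Real.sin φ) := rfl
    rw [e]
    simp only [hF]
    by_cases h0 : 0 < φ
    · have hs : 0 < Real.sin φ := Real.sin_pos_of_pos_of_lt_pi h0 hφ.2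
      rw [indicator_of_mem (show r * Real.sin φ ∈ Ioi (0 : ℝ) from mul_pos hr0 hs),
        indicator_of_mem (show φ ∈ Ioo 0 π from ⟨h0, hφ.2⟩)]
      have e1 : 1 + (r * Real.cos φ) ^ 2 + (r * Real.sin φ) ^ 2 = 1 + r ^ 2 := by
        linear_combination r ^ 2 * Real.sin_sq_add_cos_sq φ
      rw [e1]
      have e2 : √(1 + r ^ 2) = q r := rfl
      rw [e2, smul_eq_mul]
      have e3 : ENNReal.ofReal (r * (q r ^ (d + 2))⁻¹) *
          ENNReal.ofReal (q r / (1 + r ^ 2 * Real.sin φ ^ 2))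
          = ENNReal.ofReal r * (ENNReal.ofReal ((1 + (r * Real.sin φ) ^ 2)⁻¹) *
            ENNReal.ofReal ((q r ^ (d + 1))⁻¹)) := by
        have hq := q_pos r
        rw [← ENNReal.ofReal_mul (by positivity), ← ENNReal.ofReal_mul (by positivity),
          ← ENNReal.ofReal_mul hr0.le]
        congr 1
        rw [mul_pow]
        field_simp
        ring
      calc ENNReal.ofReal r * (f (r * Real.sin φ) * ENNReal.ofReal ((1 + (r * Real.sin φ) ^ 2)⁻¹) *
            ENNReal.ofReal ((q r ^ (d + 1))⁻¹))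
          = f (r * Real.sin φ) * (ENNReal.ofReal r * (ENNReal.ofReal ((1 + (r * Real.sin φ) ^ 2)⁻¹) *
            ENNReal.ofReal ((q r ^ (d + 1))⁻¹))) := by ring
        _ = _ := by rw [← e3]; ring
    · have hs : Real.sin φ ≤ 0 :=
        Real.sin_nonpos_of_nonpos_of_neg_pi_le (not_lt.1 h0) hφ.1.le
      rw [indicator_of_notMem (show r * Real.sin φ ∉ Ioi (0 : ℝ) from
        not_lt.2 (mul_nonpos_of_nonneg_of_nonpos hr0.le hs)),
        indicator_of_notMem (show φ ∉ Ioo 0 π from fun h => h0 h.1)]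
      simp
  rw [setLIntegral_congr_fun measurableSet_Ioo h2, lintegral_indicator measurableSet_Ioo,
    Measure.restrict_restrict measurableSet_Ioo]
  congr 2
  ext φ
  constructor
  · intro h; exact ⟨h, ⟨by linarith [h.1, Real.pi_pos], h.2⟩⟩
  · intro h; exact h.1

/-- The integral inequality for radial conformal factors. -/
theorem radial {d : ℕ} (hd : 1 ≤ d) {f : ℝ → ℝ} (hf : Continuous f) (hf0 : ∀ w, 0 ≤ f w)
    (h : ∀ r, 0 < r → π ≤ ∫ φ in (0 : ℝ)..π, f (r * Real.sin φ) *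
      (q r / (1 + r ^ 2 * Real.sin φ ^ 2))) :
    ∫⁻ w in Ioi (0 : ℝ), wt (d + 2) w ≤
      ∫⁻ w in Ioi (0 : ℝ), ENNReal.ofReal (f w ^ (d + 1)) * wt (d + 2) w := by
  set ν1 := ∫⁻ w in Ioi (0 : ℝ), wt (d + 2) w with hν1
  have hν1t : ν1 < ∞ := by
    refine lt_of_le_of_lt ?_ lint_finite
    exact (setLIntegral_le_lintegral _ _).trans (lintegral_mono fun x => wt_le (by omega) x)
  -- linear bound
  have hlin : ν1 ≤ ∫⁻ w in Ioi (0 : ℝ), ENNReal.ofReal (f w) * wt (d + 2) w := by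
    have h1 := polar_identity d (f := fun w => ENNReal.ofReal (f w)) hf.measurable.ennreal_ofReal
    have h2 := polar_identity d (f := fun _ => 1) measurable_const
    have hle : ∀ r ∈ Ioi (0 : ℝ), ENNReal.ofReal (r * (q r ^ (d + 2))⁻¹) *
        ∫⁻ φ in Ioo (0 : ℝ) π, (1 : ℝ≥0∞) * ENNReal.ofReal (q r / (1 + r ^ 2 * Real.sin φ ^ 2)) ≤
        ENNReal.ofReal (r * (q r ^ (d + 2))⁻¹) *
        ∫⁻ φ in Ioo (0 : ℝ) π, ENNReal.ofReal (f (r * Real.sin φ)) *
          ENNReal.ofReal (q r / (1 + r ^ 2 * Real.sin φ ^ 2)) := by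
      intro r hr
      refine mul_le_mul_right ?_ _
      have hk : Continuous (fun φ => q r / (1 + r ^ 2 * Real.sin φ ^ 2)) :=
        continuous_const.div (by fun_prop) fun φ => by positivity
      have hk0 : ∀ φ, 0 ≤ q r / (1 + r ^ 2 * Real.sin φ ^ 2) := fun φ =>
        div_nonneg (q_pos r).le (by positivity)
      have hfk : Continuous (fun φ => f (r * Real.sin φ) * (q r / (1 + r ^ 2 * Real.sin φ ^ 2))) :=
        (hf.comp (by fun_prop)).mul hk
      have conv : ∀ g : ℝ → ℝ, Continuous g → (∀ φ, 0 ≤ g φ) →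
          ∫⁻ φ in Ioo (0 : ℝ) π, ENNReal.ofReal (g φ) = ENNReal.ofReal (∫ φ in (0 : ℝ)..π, g φ) := by
        intro g hg hg0
        rw [intervalIntegral.integral_of_le Real.pi_pos.le, integral_Ioc_eq_integral_Ioo,
          ofReal_integral_eq_lintegral_ofReal]
        · exact (hg.integrableOn_Icc (a := 0) (b := π)).mono_set Ioo_subset_Icc_self
        · exact Filter.Eventually.of_forall hg0
      have e1 : ∫⁻ φ in Ioo (0 : ℝ) π, (1 : ℝ≥0∞) *
          ENNReal.ofReal (q r / (1 + r ^ 2 * Real.sin φ ^ 2)) = ENNReal.ofReal π := by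
        simp only [one_mul]
        rw [conv _ hk hk0, semicircle]
      have e2 : ∫⁻ φ in Ioo (0 : ℝ) π, ENNReal.ofReal (f (r * Real.sin φ)) *
          ENNReal.ofReal (q r / (1 + r ^ 2 * Real.sin φ ^ 2))
          = ENNReal.ofReal (∫ φ in (0 : ℝ)..π, f (r * Real.sin φ) *
            (q r / (1 + r ^ 2 * Real.sin φ ^ 2))) := by
        rw [← conv _ hfk (fun φ => mul_nonneg (hf0 _) (hk0 φ))]
        refine lintegral_congr fun φ => ?_
        rw [ENNReal.ofReal_mul (hf0 _)]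
      rw [e1, e2]
      exact ENNReal.ofReal_le_ofReal (h r hr)
    have h3 := setLIntegral_mono' (μ := volume) measurableSet_Ioi hle
    rw [h1, h2] at h3
    simp only [one_mul] at h3
    exact (ENNReal.mul_le_mul_iff_right (Cd_ne_zero d) (Cd_lt_top hd).ne).1 h3
  -- Bernoulli
  have hb : ∀ w, ((d : ℝ≥0∞) + 1) * (ENNReal.ofReal (f w) * wt (d + 2) w) ≤
      ENNReal.ofReal (f w ^ (d + 1)) * wt (d + 2) w + (d : ℝ≥0∞) * wt (d + 2) w := by
    intro w
    rw [← mul_assoc, ← add_mul]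
    refine mul_le_mul_left ?_ _
    have h1 : (d : ℝ≥0∞) + 1 = ENNReal.ofReal ((d : ℝ) + 1) := by
      rw [ENNReal.ofReal_add (by positivity) (by norm_num)]; simp
    have h2 : (d : ℝ≥0∞) = ENNReal.ofReal (d : ℝ) := by simp
    rw [h1, h2, ← ENNReal.ofReal_mul (by positivity),
      ← ENNReal.ofReal_add (pow_nonneg (hf0 w) _) (by positivity)]
    apply ENNReal.ofReal_le_ofReal
    have h3 := one_add_mul_le_pow (a := f w - 1) (by linarith [hf0 w]) (d + 1)
    push_cast at h3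
    have h4 : 1 + (f w - 1) = f w := by ring
    rw [h4] at h3
    linarith
  have hsum : ((d : ℝ≥0∞) + 1) * ν1 ≤
      (∫⁻ w in Ioi (0 : ℝ), ENNReal.ofReal (f w ^ (d + 1)) * wt (d + 2) w) + (d : ℝ≥0∞) * ν1 := by
    calc ((d : ℝ≥0∞) + 1) * ν1
        ≤ ((d : ℝ≥0∞) + 1) * ∫⁻ w in Ioi (0 : ℝ), ENNReal.ofReal (f w) * wt (d + 2) w :=
          mul_le_mul_right hlin _
      _ = ∫⁻ w in Ioi (0 : ℝ), ((d : ℝ≥0∞) + 1) * (ENNReal.ofReal (f w) * wt (d + 2) w) := by
          rw [lintegral_const_mul _ (show Measurable (fun w => ENNReal.ofReal (f w) * wt (d + 2) w)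
            from hf.measurable.ennreal_ofReal.mul (measurable_wt _))]
      _ ≤ ∫⁻ w in Ioi (0 : ℝ), (ENNReal.ofReal (f w ^ (d + 1)) * wt (d + 2) w
            + (d : ℝ≥0∞) * wt (d + 2) w) := lintegral_mono hb
      _ = _ := by
          rw [lintegral_add_right _ ((measurable_wt _).const_mul _),
            lintegral_const_mul _ (measurable_wt _)]
  have hfin : (d : ℝ≥0∞) * ν1 ≠ ∞ := ENNReal.mul_ne_top (by simp) hν1t.ne
  rw [add_mul, one_mul, add_comm] at hsum
  exact (ENNReal.add_le_add_iff_right hfin).1 hsum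

/-- The weight integral. -/
theorem cos_le (d : ℕ) : ENNReal.ofReal (∫ θ in (0 : ℝ)..(π / 2), Real.cos θ ^ d) ≤
    ∫⁻ w in Ioi (0 : ℝ), wt (d + 2) w := by
  have hpi : (0 : ℝ) < π / 2 := by positivity
  have hsub : Real.tan '' Ioo 0 (π / 2) ⊆ Ioi 0 := by
    rintro _ ⟨θ, hθ, rfl⟩
    exact Real.tan_pos_of_pos_of_lt_pi_div_two hθ.1 hθ.2
  have hcos : ∀ θ ∈ Ioo 0 (π / 2), 0 < Real.cos θ := fun θ hθ =>
    Real.cos_pos_of_mem_Ioo ⟨by linarith [hθ.1], hθ.2⟩
  have h1 := lintegral_image_eq_lintegral_deriv_mul_of_monotoneOn (s := Ioo 0 (π / 2))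
    (f := Real.tan) (f' := fun θ => 1 / Real.cos θ ^ 2) measurableSet_Ioo
    (fun θ hθ => (Real.hasDerivAt_tan (hcos θ hθ).ne').hasDerivWithinAt)
    (fun x hx y hy hxy => (Real.strictMonoOn_tan.monotoneOn ⟨by linarith [hx.1], hx.2⟩
      ⟨by linarith [hy.1], hy.2⟩ hxy)) (wt (d + 2))
  refine le_trans (le_of_eq ?_) (lintegral_mono_set hsub)
  rw [h1]
  have hc : Continuous (fun θ => Real.cos θ ^ d) := by fun_prop
  rw [intervalIntegral.integral_of_le hpi.le, integral_Ioc_eq_integral_Ioo,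
    ofReal_integral_eq_lintegral_ofReal
      ((hc.integrableOn_Icc (a := 0) (b := π / 2)).mono_set Ioo_subset_Icc_self)]
  · refine setLIntegral_congr_fun measurableSet_Ioo fun θ hθ => ?_
    have hcp := hcos θ hθ
    unfold wt
    rw [← ENNReal.ofReal_mul (by positivity)]
    congr 1
    have hq : q (Real.tan θ) = (Real.cos θ)⁻¹ := by
      unfold q
      have h2 : 1 + Real.tan θ ^ 2 = ((Real.cos θ)⁻¹) ^ 2 := by
        rw [Real.tan_eq_sin_div_cos]
        have := Real.sin_sq_add_cos_sq θ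
        field_simp
        linarith
      rw [h2, Real.sqrt_sq (inv_pos.2 hcp).le]
    rw [hq, inv_pow, inv_inv]
    field_simp
    ring
  · refine (ae_restrict_iff' measurableSet_Ioo).2 (Filter.Eventually.of_forall fun θ hθ => ?_)
    exact pow_nonneg (hcos θ hθ).le d

end Pool.Agent.FC640.CS
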