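import Mathlib

/-! # The conformal coordinate -/

set_option autoImplicit false
set_option maxHeartbeats 400000

open Real Set MeasureTheory

namespace Pool.Agent.FC640.CS

theorem exists_S {β : ℝ → ℝ} {R L : ℝ} (hR : 0 < R) (hc : Continuous β)
    (hpos : ∀ s, s < R → 0 < β s) (hL : ∀ s, 0 ≤ s → s < R → β s ≤ L * (R - s))
    (hneg : ∀ s, s ≤ 0 → β s = β 0) :
    ∃ S : ℝ → ℝ, S 0 = 0 ∧ (∀ u, S u < R) ∧ (∀ u, 0 ≤ u → 0 ≤ S u) ∧ StrictMono S ∧
      ∀ u, HasDerivAt S (β (S u)) u := by
  have hβ0 : 0 < β 0 := hpos 0 hR
  have hL0 : 0 < L := by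
    have := hL 0 le_rfl hR
    rw [sub_zero] at this
    by_contra h
    push Not at h
    have h2 : L * R ≤ 0 := mul_nonpos_of_nonpos_of_nonneg h hR.le
    linarith
  set U : ℝ → ℝ := fun s => ∫ x in (0 : ℝ)..s, (β x)⁻¹ with hU
  have hcont : ∀ s, s < R → ContinuousAt (fun x => (β x)⁻¹) s := fun s hs =>
    hc.continuousAt.inv₀ (hpos s hs).ne'
  have hint : ∀ s, s < R → IntervalIntegrable (fun x => (β x)⁻¹) volume 0 s := by
    intro s hs
    refine ContinuousOn.intervalIntegrable fun x hx => (hcont x ?_).continuousWithinAt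
    have := (mem_uIcc.1 hx)
    rcases this with h | h
    · exact h.2.trans_lt hs
    · exact h.2.trans_lt hR
  have hUd : ∀ s, s < R → HasDerivAt U (β s)⁻¹ s := by
    intro s hs
    refine intervalIntegral.integral_hasDerivAt_right (hint s hs) ?_ (hcont s hs)
    exact (hc.measurable.inv).stronglyMeasurable.stronglyMeasurableAtFilter
  have hU0 : U 0 = 0 := by simp [hU]
  have hmono : StrictMonoOn U (Iio R) := by
    refine strictMonoOn_of_deriv_pos (convex_Iio R)
      (fun s hs => (hUd s hs).continuousAt.continuousWithinAt) fun s hs => ?_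
    rw [interior_Iio] at hs
    rw [(hUd s hs).deriv]
    exact inv_pos.2 (hpos s hs)
  -- surjectivity
  have hbig : ∀ s, 0 ≤ s → s < R → (1 / L) * (Real.log R - Real.log (R - s)) ≤ U s := by
    intro s hs0 hs
    set G : ℝ → ℝ := fun x => U x + (1 / L) * Real.log (R - x) with hG
    have hGd : ∀ x, x < R → HasDerivAt G ((β x)⁻¹ + (1 / L) * (-1 / (R - x))) x := by
      intro x hx
      have h1 : HasDerivAt (fun x => R - x) (-1) x := by
        simpa using (hasDerivAt_id x).const_sub R
      exact (hUd x hx).add ((h1.log (by linarith)).const_mul (1 / L))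
    have hGm : MonotoneOn G (Ico 0 R) := by
      refine monotoneOn_of_deriv_nonneg (convex_Ico 0 R)
        (fun x hx => (hGd x hx.2).continuousAt.continuousWithinAt)
        (fun x hx => ?_) fun x hx => ?_
      · rw [interior_Ico] at hx
        exact (hGd x hx.2).differentiableAt.differentiableWithinAt
      · rw [interior_Ico] at hx
        rw [(hGd x hx.2).deriv]
        have h1 := hL x hx.1.le hx.2
        have h2 := hpos x hx.2
        have h3 : 0 < R - x := by linarith [hx.2]
        have h4 : 1 / (L * (R - x)) ≤ (β x)⁻¹ := by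
          rw [one_div]
          exact inv_anti₀ h2 h1
        have h5 : (1 / L) * (-1 / (R - x)) = -(1 / (L * (R - x))) := by
          field_simp
        rw [h5]
        linarith
    have h := hGm (left_mem_Ico.2 hR) ⟨hs0, hs⟩ hs0
    simp only [hG, hU0, sub_zero, zero_add] at h
    linarith
  have hsurj : ∀ u : ℝ, ∃ s, s < R ∧ U s = u := by
    intro u
    rcases le_or_gt 0 u with h | h
    · set s := R * (1 - Real.exp (-(L * u))) with hs
      have h1 : 0 < Real.exp (-(L * u)) := Real.exp_pos _
      have h2 : Real.exp (-(L * u)) ≤ 1 := Real.exp_le_one_iff.2 (by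
        have := mul_nonneg hL0.le h
        linarith)
      have hs0 : 0 ≤ s := mul_nonneg hR.le (by linarith)
      have hsR : s < R := by
        have : R * (1 - Real.exp (-(L * u))) = R - R * Real.exp (-(L * u)) := by ring
        rw [hs, this]
        have := mul_pos hR h1
        linarith
      have h3 : u ≤ U s := by
        have h4 := hbig s hs0 hsR
        have h5 : R - s = R * Real.exp (-(L * u)) := by rw [hs]; ring
        rw [h5, Real.log_mul hR.ne' h1.ne', Real.log_exp] at h4
        have h6 : (1 / L) * (Real.log R - (Real.log R + -(L * u))) = u := by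
          field_simp; ring
        rw [h6] at h4
        exact h4
      have hcon : ContinuousOn U (Icc 0 s) := fun x hx =>
        (hUd x (hx.2.trans_lt hsR)).continuousAt.continuousWithinAt
      obtain ⟨x, hx, hxu⟩ := intermediate_value_Icc hs0 hcon ⟨by rw [hU0]; exact h, h3⟩
      exact ⟨x, hx.2.trans_lt hsR, hxu⟩
    · refine ⟨u * β 0, ?_, ?_⟩
      · have := mul_neg_of_neg_of_pos h hβ0
        linarith
      · have h1 : U (u * β 0) = ∫ x in (0 : ℝ)..(u * β 0), (β 0)⁻¹ := by
          refine intervalIntegral.integral_congr fun x hx => ?_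
          have h2 : x ≤ 0 := by
            rcases mem_uIcc.1 hx with h' | h'
            · have := mul_neg_of_neg_of_pos h hβ0
              linarith [h'.1, h'.2]
            · exact h'.2
          simp only [hneg x h2]
        rw [h1, intervalIntegral.integral_const, smul_eq_mul, sub_zero]
        field_simp
  -- the inverse
  let V : Iio R → ℝ := fun s => U s
  have hV : StrictMono V := fun x y hxy => hmono x.2 y.2 hxy
  have hVs : Function.Surjective V := fun u => by
    obtain ⟨s, hs, hsu⟩ := hsurj u
    exact ⟨⟨s, hs⟩, hsu⟩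
  let e := StrictMono.orderIsoOfSurjective V hV hVs
  have he : ∀ u, U (e.symm u : ℝ) = u := fun u => e.apply_symm_apply u
  have hec : Continuous (fun u => (e.symm u : ℝ)) :=
    continuous_subtype_val.comp e.symm.continuous
  have hem : StrictMono (fun u => (e.symm u : ℝ)) := fun x y hxy => e.symm.strictMono hxy
  have he0 : (e.symm 0 : ℝ) = 0 := by
    have h1 : U (e.symm 0 : ℝ) = U 0 := (he 0).trans hU0.symm
    exact hmono.injOn (e.symm 0).2 hR h1
  refine ⟨fun u => (e.symm u : ℝ), he0, fun u => (e.symm u).2, fun u hu => ?_, hem, fun u => ?_⟩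
  · have := hem.monotone hu
    simp only [he0] at this
    exact this
  · have h1 := HasDerivAt.of_local_left_inverse (f := U) (g := fun u => (e.symm u : ℝ))
      (a := u) hec.continuousAt (hUd _ (e.symm u).2)
      (inv_ne_zero (hpos _ (e.symm u).2).ne') (Filter.Eventually.of_forall he)
    rwa [inv_inv] at h1

end Pool.Agent.FC640.CS
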