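import Pool.Agent.FC640.CS.Sph
import Pool.Agent.FC640.CS.Inv
import Pool.Agent.FC640.CS.Ana

/-! # Fillings of odd spheres with conformally round slices -/

set_option autoImplicit false
set_option maxHeartbeats 400000

open Real Set MeasureTheory Metric ENNReal
open scoped ContDiff

namespace Pool.Agent.FC640.CS

variable {n : ℕ}

/-- The metric `ds² + b(s,x)² g_round` on `[0,R) × S^(2n-1)`, closed by a point at `s = R`. -/
structure IsMetric (n : ℕ) (R : ℝ) (b : ℝ × Sph n → ℝ) : Prop where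
  pos_R : 0 < R
  cont : ContinuousOn b (Icc 0 R ×ˢ univ)
  pos : ∀ s ∈ Ico (0 : ℝ) R, ∀ x, 0 < b (s, x)
  cap : ∃ L : ℝ, ∀ s ∈ Ico (0 : ℝ) R, ∀ x, b (s, x) ≤ L * (R - s)

/-- No curve joins two boundary points faster than along the round sphere. -/
def NonShort (n : ℕ) (R : ℝ) (b : ℝ × Sph n → ℝ) : Prop :=
  ∀ (l : ℝ) (s : ℝ → ℝ) (y : ℝ → Sph n), 0 < l → ContDiff ℝ 1 s →
    ContDiff ℝ 1 (fun t => (y t : E n)) → (∀ t ∈ Icc 0 l, s t ∈ Ico 0 R) → s 0 = 0 → s l = 0 →
    InnerProductGeometry.angle (y 0 : E n) (y l) ≤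
      ∫ t in (0 : ℝ)..l, √((deriv s t) ^ 2 +
        b (s t, y t) ^ 2 * ‖deriv (fun t => (y t : E n)) t‖ ^ 2)

/-- The volume. -/
noncomputable def vol (n : ℕ) (R : ℝ) (b : ℝ × Sph n → ℝ) : ℝ≥0∞ :=
  ∫⁻ s in Ioo 0 R, ∫⁻ x, ENNReal.ofReal (b (s, x) ^ (2 * n - 1)) ∂(σ n)

/-- Power means. -/
lemma power_mean {A β : ℝ} (hβ : 0 < β) {d : ℕ} (hd : 2 ≤ d) {h : Sph n → ℝ}
    (hc : Continuous h) (h0 : ∀ x, 0 ≤ h x) (hA : A = (σ n).real univ)
    (hm : ∫ x, h x ^ 2 ∂(σ n) = A * β ^ 2) :
    A * β ^ d ≤ ∫ x, h x ^ d ∂(σ n) := by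
  have hint : ∀ g : Sph n → ℝ, Continuous g → Integrable g (σ n) := fun g hg => by
    have := hg.continuousOn.integrableOn_compact (μ := σ n) (isCompact_univ)
    rwa [integrableOn_univ] at this
  have hpt : ∀ x, β ^ d * (1 + (d : ℝ) / 2 * (h x ^ 2 / β ^ 2 - 1)) ≤ h x ^ d := by
    intro x
    have h1 := one_add_mul_self_le_rpow_one_add (s := h x ^ 2 / β ^ 2 - 1)
      (by have : 0 ≤ h x ^ 2 / β ^ 2 := by positivity
          linarith) (p := (d : ℝ) / 2) (by
        rw [le_div_iff₀ (by norm_num)]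
        have : (2 : ℝ) ≤ d := by exact_mod_cast hd
        linarith)
    have h2 : 1 + (h x ^ 2 / β ^ 2 - 1) = (h x / β) ^ (2 : ℕ) := by rw [div_pow]; ring
    have h3 : ((h x / β) ^ (2 : ℕ)) ^ ((d : ℝ) / 2) = (h x / β) ^ d := by
      rw [← Real.rpow_natCast (h x / β) 2, ← Real.rpow_mul (div_nonneg (h0 x) hβ.le),
        ← Real.rpow_natCast (h x / β) d]
      congr 1
      push_cast
      ring
    rw [h2, h3, div_pow] at h1
    have h4 := mul_le_mul_of_nonneg_left h1 (pow_pos hβ d).le
    have h5 : β ^ d * (h x ^ d / β ^ d) = h x ^ d := by field_simp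
    rwa [h5] at h4
  have h6 : ∫ x, β ^ d * (1 + (d : ℝ) / 2 * (h x ^ 2 / β ^ 2 - 1)) ∂(σ n) = A * β ^ d := by
    have e : ∀ x, β ^ d * (1 + (d : ℝ) / 2 * (h x ^ 2 / β ^ 2 - 1))
        = β ^ d * (1 - (d : ℝ) / 2) + (β ^ d * ((d : ℝ) / 2) / β ^ 2) * h x ^ 2 := by
      intro x; field_simp; ring
    simp only [e]
    have h7 : Integrable (fun x => (β ^ d * ((d : ℝ) / 2) / β ^ 2) * h x ^ 2) (σ n) :=
      hint _ (by fun_prop)
    rw [integral_add (integrable_const _) h7, integral_const,
      integral_const_mul, hm, smul_eq_mul, ← hA]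
    field_simp
    ring
  rw [← h6]
  refine integral_mono ?_ (hint _ (hc.pow d)) hpt
  exact hint _ (by fun_prop)

/-- Jensen's inequality for the lengths. -/
lemma jensen {A β c : ℝ} (hβ : 0 < β) {h : Sph n → ℝ}
    (hc : Continuous h) (hA : A = (σ n).real univ)
    (hm : ∫ x, h x ^ 2 ∂(σ n) = A * β ^ 2) :
    ∫ x, √(c ^ 2 + h x ^ 2) ∂(σ n) ≤ A * √(c ^ 2 + β ^ 2) := by
  have hint : ∀ g : Sph n → ℝ, Continuous g → Integrable g (σ n) := fun g hg => by
    have := hg.continuousOn.integrableOn_compact (μ := σ n) (isCompact_univ)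
    rwa [integrableOn_univ] at this
  set X := √(c ^ 2 + β ^ 2) with hX
  have hXp : 0 < X := Real.sqrt_pos.2 (by positivity)
  have hX2 : X ^ 2 = c ^ 2 + β ^ 2 := Real.sq_sqrt (by positivity)
  have hpt : ∀ x, √(c ^ 2 + h x ^ 2) ≤ (c ^ 2 + X ^ 2) / (2 * X) + (1 / (2 * X)) * h x ^ 2 := by
    intro x
    set Y := √(c ^ 2 + h x ^ 2) with hY
    have hY2 : Y ^ 2 = c ^ 2 + h x ^ 2 := Real.sq_sqrt (by positivity)
    have e : (c ^ 2 + X ^ 2) / (2 * X) + (1 / (2 * X)) * h x ^ 2 = (Y ^ 2 + X ^ 2) / (2 * X) := by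
      rw [hY2]; field_simp; ring
    rw [e, le_div_iff₀ (by positivity)]
    nlinarith [sq_nonneg (X - Y)]
  calc ∫ x, √(c ^ 2 + h x ^ 2) ∂(σ n)
      ≤ ∫ x, ((c ^ 2 + X ^ 2) / (2 * X) + (1 / (2 * X)) * h x ^ 2) ∂(σ n) := by
        refine integral_mono (hint _ (by fun_prop)) (hint _ (by fun_prop)) hpt
    _ = A * X := by
        have h7 : Integrable (fun x => (1 / (2 * X)) * h x ^ 2) (σ n) := hint _ (by fun_prop)
        rw [integral_add (integrable_const _) h7, integral_const,
          integral_const_mul, hm, smul_eq_mul, ← hA, hX2]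
        field_simp
        rw [hX2]; ring

theorem main (hn : 2 ≤ n) {R : ℝ} {b : ℝ × Sph n → ℝ} (hM : IsMetric n R b)
    (hS : NonShort n R b) :
    (σ n) univ * ENNReal.ofReal (∫ θ in (0 : ℝ)..(π / 2), Real.cos θ ^ (2 * n - 1)) ≤
      vol n R b := by
  have hR := hM.pos_R
  obtain ⟨L, hL⟩ := hM.cap
  have : NeZero n := ⟨by omega⟩
  have : Nonempty (Fin n × Fin 2) := inferInstance
  have : Nontrivial (E n) := inferInstance
  set A := (σ n).real univ with hA
  have hA0 : 0 < A := by
    rw [hA, Measure.real, ENNReal.toReal_pos_iff]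
    refine ⟨?_, measure_lt_top _ _⟩
    rw [pos_iff_ne_zero, Ne, Measure.measure_univ_eq_zero]
    exact Measure.toSphere_ne_zero _
  -- the extended function
  set B : ℝ × Sph n → ℝ := fun p => b (max 0 (min p.1 R), p.2) with hB
  have hBc : Continuous B := by
    refine hM.cont.comp_continuous (by fun_prop) fun p => ?_
    exact ⟨⟨le_max_left _ _, max_le hR.le (min_le_right _ _)⟩, mem_univ _⟩
  have hBb : ∀ s ∈ Ico (0 : ℝ) R, ∀ x, B (s, x) = b (s, x) := by
    intro s hs x
    simp only [hB]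
    rw [min_eq_left hs.2.le, max_eq_right hs.1]
  have hBneg : ∀ s, s ≤ 0 → ∀ x, B (s, x) = b (0, x) := by
    intro s hs x
    simp only [hB]
    rw [min_eq_left (hs.trans hR.le), max_eq_left hs]
  have hBpos : ∀ s, s < R → ∀ x, 0 < B (s, x) := by
    intro s hs x
    rcases le_or_gt s 0 with h | h
    · rw [hBneg s h x]; exact hM.pos 0 ⟨le_rfl, hR⟩ x
    · rw [hBb s ⟨h.le, hs⟩ x]; exact hM.pos s ⟨h.le, hs⟩ x
  have hint : ∀ g : Sph n → ℝ, Continuous g → Integrable g (σ n) := fun g hg => by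
    have := hg.continuousOn.integrableOn_compact (μ := σ n) (isCompact_univ)
    rwa [integrableOn_univ] at this
  have hBs : ∀ s, Continuous (fun x => B (s, x)) := fun s => hBc.comp (Continuous.prodMk_right s)
  -- the mean
  set I : ℝ → ℝ := fun s => ∫ x, B (s, x) ^ 2 ∂(σ n) with hI
  have hIc : Continuous I := by
    have h1 := continuous_parametric_integral_of_continuous (μ := σ n)
      (f := fun (s : ℝ) (x : Sph n) => B (s, x) ^ 2) (by
        have : Function.uncurry (fun (s : ℝ) (x : Sph n) => B (s, x) ^ 2) = fun p => B p ^ 2 := rfl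
        rw [this]; exact hBc.pow 2) (s := univ) isCompact_univ
    simpa only [Measure.restrict_univ] using h1
  have hIpos : ∀ s, s < R → 0 < I s := by
    intro s hs
    obtain ⟨x₀⟩ : Nonempty (Sph n) := by
      obtain ⟨v, hv⟩ := exists_norm_eq (E n) (zero_le_one)
      exact ⟨⟨v, mem_sphere_zero_iff_norm.2 hv⟩⟩
    refine Continuous.integral_pos_of_hasCompactSupport_nonneg_nonzero ((hBs s).pow 2)
      (HasCompactSupport.of_compactSpace _) (fun x => sq_nonneg _) (x := x₀) ?_
    exact (pow_pos (hBpos s hs x₀) 2).ne'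
  set β : ℝ → ℝ := fun s => √(I s / A) with hβ
  have hβc : Continuous β := by
    simp only [hβ]; exact (hIc.div_const A).sqrt
  have hβpos : ∀ s, s < R → 0 < β s := fun s hs => Real.sqrt_pos.2 (div_pos (hIpos s hs) hA0)
  have hInn : ∀ s, 0 ≤ I s := fun s => integral_nonneg fun x => sq_nonneg _
  have hβ2 : ∀ s, ∫ x, B (s, x) ^ 2 ∂(σ n) = A * β s ^ 2 := by
    intro s
    simp only [hβ]
    rw [Real.sq_sqrt (div_nonneg (hInn s) hA0.le)]
    field_simp
    rfl
  have hβL : ∀ s, 0 ≤ s → s < R → β s ≤ L * (R - s) := by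
    intro s hs0 hs
    obtain ⟨x₀⟩ : Nonempty (Sph n) := by
      obtain ⟨v, hv⟩ := exists_norm_eq (E n) (zero_le_one)
      exact ⟨⟨v, mem_sphere_zero_iff_norm.2 hv⟩⟩
    have hLn : 0 ≤ L * (R - s) := (hM.pos s ⟨hs0, hs⟩ x₀).le.trans (hL s ⟨hs0, hs⟩ x₀)
    refine Real.sqrt_le_iff.2 ⟨hLn, ?_⟩
    rw [div_le_iff₀ hA0]
    calc I s ≤ ∫ _x : Sph n, (L * (R - s)) ^ 2 ∂(σ n) := by
          refine integral_mono (hint _ ((hBs s).pow 2)) (integrable_const _) fun x => ?_
          have h1 := hBb s ⟨hs0, hs⟩ x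
          have h2 := hL s ⟨hs0, hs⟩ x
          have h3 := hBpos s hs x
          show B (s, x) ^ 2 ≤ (L * (R - s)) ^ 2
          rw [h1] at h3 ⊢
          exact pow_le_pow_left₀ h3.le h2 2
      _ = (L * (R - s)) ^ 2 * A := by rw [integral_const, smul_eq_mul, mul_comm]
  have hβneg : ∀ s, s ≤ 0 → β s = β 0 := by
    intro s hs
    have h1 : I s = I 0 := by
      simp only [hI]
      refine integral_congr_ae (Filter.Eventually.of_forall fun x => ?_)
      simp only [hBneg s hs x, hBneg 0 le_rfl x]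
    simp only [hβ, h1]
  obtain ⟨S, hS0, hSR, hSn, hSm, hSd⟩ := exists_S hR hβc hβpos hβL hβneg
  have hSc : Continuous S := continuous_iff_continuousAt.2 fun u => (hSd u).continuousAt
  set T : ℝ → ℝ := fun w => S (Real.arsinh w) with hT
  have hTc : Continuous T := hSc.comp Real.continuous_arsinh
  have hTd : ∀ w, HasDerivAt T (β (T w) * (q w)⁻¹) w := fun w =>
    (hSd (Real.arsinh w)).comp w (Real.hasDerivAt_arsinh w)
  have hTR : ∀ w, T w < R := fun w => hSR _
  have hT0 : T 0 = 0 := by simp only [hT, Real.arsinh_zero, hS0]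
  have hTn : ∀ w, 0 ≤ w → 0 ≤ T w := fun w hw => hSn _ (Real.arsinh_nonneg_iff.2 hw)
  have hTm : StrictMono T := fun x y hxy => hSm (Real.arsinh_lt_arsinh.2 hxy)
  set f : ℝ → ℝ := fun w => β (T w) * q w with hf
  have hfc : Continuous f := (hβc.comp hTc).mul continuous_q
  have hf0 : ∀ w, 0 ≤ f w := fun w => mul_nonneg (hβpos _ (hTR w)).le (q_pos w).le
  -- the lengths
  have hlen : ∀ r, 0 < r → π ≤ ∫ φ in (0 : ℝ)..π, f (r * Real.sin φ) *
      (q r / (1 + r ^ 2 * Real.sin φ ^ 2)) := by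
    intro r hr
    set s : ℝ → ℝ := fun φ => T (r * Real.sin φ) with hs
    set s' : ℝ → ℝ := fun φ => β (T (r * Real.sin φ)) * (q (r * Real.sin φ))⁻¹ * (r * Real.cos φ)
      with hs'
    have hsd : ∀ φ, HasDerivAt s (s' φ) φ := fun φ =>
      HasDerivAt.comp (h₂ := T) (h := fun φ => r * Real.sin φ) φ (hTd (r * Real.sin φ))
        ((Real.hasDerivAt_sin φ).const_mul r)
    have hqi : Continuous (fun φ => (q (r * Real.sin φ))⁻¹) :=
      (continuous_q.comp (by fun_prop)).inv₀ fun φ => (q_pos _).ne'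
    have hs'c : Continuous s' :=
      ((hβc.comp (hTc.comp (by fun_prop))).mul hqi).mul (by fun_prop)
    have hsc : Continuous s := hTc.comp (by fun_prop)
    have hsC : ContDiff ℝ 1 s := by
      rw [contDiff_one_iff_deriv]
      refine ⟨fun φ => (hsd φ).differentiableAt, ?_⟩
      have : deriv s = s' := funext fun φ => (hsd φ).deriv
      rw [this]; exact hs'c
    set g : ℝ × Sph n → ℝ := fun p => √(s' p.1 ^ 2 + B (s p.1, rot p.1 p.2) ^ 2) with hg
    have hgc : Continuous g := by
      refine Continuous.sqrt (((hs'c.comp continuous_fst).pow 2).add ((hBc.comp ?_).pow 2))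
      exact (hsc.comp continuous_fst).prodMk continuous_rot
    have hcurve : ∀ x : Sph n, π ≤ ∫ φ in (0 : ℝ)..π, g (φ, x) := by
      intro x
      have hyC : ContDiff ℝ 1 (fun φ => (rot φ x : E n)) := by
        have : (fun φ => (rot φ x : E n)) = fun φ => Real.cos φ • (x : E n) + Real.sin φ • J (x : E n) :=
          funext fun φ => rotE_apply φ (x : E n)
        rw [this]
        exact (Real.contDiff_cos.smul contDiff_const).add (Real.contDiff_sin.smul contDiff_const)
      have hyd : ∀ φ, HasDerivAt (fun φ => (rot φ x : E n))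
          ((-Real.sin φ) • (x : E n) + Real.cos φ • J (x : E n)) φ := by
        intro φ
        have : (fun φ => (rot φ x : E n)) = fun φ => Real.cos φ • (x : E n) + Real.sin φ • J (x : E n) :=
          funext fun φ => rotE_apply φ (x : E n)
        rw [this]
        exact ((Real.hasDerivAt_cos φ).smul_const _).add ((Real.hasDerivAt_sin φ).smul_const _)
      have hyn : ∀ φ, ‖(-Real.sin φ) • (x : E n) + Real.cos φ • J (x : E n)‖ = 1 := by
        intro φ
        have h1 := norm_rot (φ + π / 2) (x : E n)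
        rw [Real.cos_add_pi_div_two, Real.sin_add_pi_div_two] at h1
        rw [h1]
        exact mem_sphere_zero_iff_norm.1 x.2
      have h1 := hS π s (fun φ => rot φ x) Real.pi_pos hsC hyC
        (fun φ hφ => ⟨hTn _ (mul_nonneg hr.le (Real.sin_nonneg_of_nonneg_of_le_pi hφ.1 hφ.2)),
          hTR _⟩) (by simp only [hs, Real.sin_zero, mul_zero, hT0])
        (by simp only [hs, Real.sin_pi, mul_zero, hT0])
      have h2 : (rot 0 x : E n) = x := by
        have := rotE_apply 0 (x : E n)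
        rw [Real.cos_zero, Real.sin_zero, one_smul, zero_smul, add_zero] at this
        exact this
      have h3 : (rot π x : E n) = -x := by
        have := rotE_apply π (x : E n)
        rw [Real.cos_pi, Real.sin_pi, neg_one_smul, zero_smul, add_zero] at this
        exact this
      have hx0 : (x : E n) ≠ 0 := by
        intro h
        have := mem_sphere_zero_iff_norm.1 x.2
        rw [h, norm_zero] at this
        exact zero_ne_one this
      have h4 : InnerProductGeometry.angle (rot 0 x : E n) (rot π x) = π := by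
        rw [h2, h3]
        exact InnerProductGeometry.angle_self_neg_of_nonzero hx0
      rw [h4] at h1
      refine h1.trans (le_of_eq ?_)
      refine intervalIntegral.integral_congr fun φ hφ => ?_
      rw [uIcc_of_le Real.pi_pos.le] at hφ
      have h5 : s φ ∈ Ico 0 R :=
        ⟨hTn _ (mul_nonneg hr.le (Real.sin_nonneg_of_nonneg_of_le_pi hφ.1 hφ.2)), hTR _⟩
      simp only [hg]
      rw [(hsd φ).deriv, (hyd φ).deriv, hyn φ, hBb (s φ) h5 (rot φ x)]
      simp
    -- integrate over the sphere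
    have hprod : Integrable g ((volume.restrict (Ioc 0 π)).prod (σ n)) := by
      have h1 : IntegrableOn g (Icc 0 π ×ˢ univ) (volume.prod (σ n)) :=
        hgc.continuousOn.integrableOn_compact (isCompact_Icc.prod isCompact_univ)
      have h2 : IntegrableOn g (Ioc 0 π ×ˢ univ) (volume.prod (σ n)) :=
        h1.mono_set (prod_mono Ioc_subset_Icc_self Subset.rfl)
      rw [IntegrableOn, ← Measure.prod_restrict, Measure.restrict_univ] at h2
      exact h2
    have hswap := integral_integral_swap (f := fun φ x => g (φ, x)) hprod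
    have hlow : A * π ≤ ∫ x, (∫ φ in Ioc 0 π, g (φ, x)) ∂(σ n) := by
      have h1 : ∫ _x : Sph n, π ∂(σ n) = A * π := by rw [integral_const, smul_eq_mul]
      rw [← h1]
      refine integral_mono (integrable_const _) hprod.integral_prod_right fun x => ?_
      have := hcurve x
      rwa [intervalIntegral.integral_of_le Real.pi_pos.le] at this
    have hkf : Continuous (fun φ => f (r * Real.sin φ) * (q r / (1 + r ^ 2 * Real.sin φ ^ 2))) :=
      (hfc.comp (by fun_prop)).mul
        (continuous_const.div (by fun_prop) fun φ => by positivity)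
    have hup : ∫ φ in Ioc 0 π, (∫ x, g (φ, x) ∂(σ n)) ≤
        ∫ φ in Ioc 0 π, A * (f (r * Real.sin φ) * (q r / (1 + r ^ 2 * Real.sin φ ^ 2))) := by
      refine integral_mono hprod.integral_prod_left ?_ fun φ => ?_
      · exact ((continuous_const.mul hkf).integrableOn_Icc (a := 0) (b := π)).mono_set
          Ioc_subset_Icc_self
      · have h1 : ∫ x, g (φ, x) ∂(σ n) = ∫ x, √(s' φ ^ 2 + B (s φ, x) ^ 2) ∂(σ n) :=
          integral_rot φ (f := fun x => √(s' φ ^ 2 + B (s φ, x) ^ 2))
            ((continuous_const.add ((hBs (s φ)).pow 2)).sqrt)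
        have h2 := jensen (c := s' φ) (hβpos (s φ) (hTR _)) (hBs (s φ)) hA (hβ2 (s φ))
        show ∫ x, g (φ, x) ∂(σ n) ≤ _
        rw [h1]
        refine h2.trans (le_of_eq ?_)
        congr 1
        have hqs := q_pos (r * Real.sin φ)
        have hqr := q_pos r
        have hb := hβpos (s φ) (hTR _)
        have e1 : s' φ ^ 2 + β (s φ) ^ 2 = (β (s φ) * (q r / q (r * Real.sin φ))) ^ 2 := by
          simp only [hs', hs]
          have e2 : q (r * Real.sin φ) ^ 2 = 1 + r ^ 2 * Real.sin φ ^ 2 := by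
            rw [q_sq, mul_pow]
          have e3 : q r ^ 2 = 1 + r ^ 2 := q_sq r
          have e4 : (r * Real.cos φ) ^ 2 = r ^ 2 - r ^ 2 * Real.sin φ ^ 2 := by
            have := Real.sin_sq_add_cos_sq φ
            rw [mul_pow]
            linear_combination r ^ 2 * this
          have e5 : q (r * Real.sin φ) ^ 2 ≠ 0 := by positivity
          have e6 : r ^ 2 = q r ^ 2 - 1 := by rw [e3]; ring
          have e7 : (r * Real.cos φ) ^ 2 = q r ^ 2 - q (r * Real.sin φ) ^ 2 := by
            rw [e4, e2, e3]; ring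
          generalize β (T (r * Real.sin φ)) = a
          generalize r * Real.cos φ = P at e7 ⊢
          generalize q (r * Real.sin φ) = Q at *
          generalize q r = W at *
          have hQ : Q ≠ 0 := by
            intro h
            apply e5
            rw [h]
            ring
          field_simp
          linear_combination a ^ 2 * e7
        rw [e1, Real.sqrt_sq (by positivity)]
        simp only [hf]
        have e2 : 1 + r ^ 2 * Real.sin φ ^ 2 = q (r * Real.sin φ) ^ 2 := by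
          rw [q_sq, mul_pow]
        rw [e2]
        simp only [hs]
        field_simp
    have hfin : A * π ≤ A * ∫ φ in (0 : ℝ)..π, f (r * Real.sin φ) *
        (q r / (1 + r ^ 2 * Real.sin φ ^ 2)) := by
      rw [intervalIntegral.integral_of_le Real.pi_pos.le, ← integral_const_mul]
      calc A * π ≤ ∫ x, (∫ φ in Ioc 0 π, g (φ, x)) ∂(σ n) := hlow
        _ = ∫ φ in Ioc 0 π, (∫ x, g (φ, x) ∂(σ n)) := hswap.symm
        _ ≤ _ := hup
    exact le_of_mul_le_mul_left hfin hA0
  -- the volume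
  have hrad := radial (d := 2 * n - 1) (by omega) hfc hf0 hlen
  have hcos := cos_le (2 * n - 1)
  have hvol : (σ n) univ * ∫⁻ s in Ioo 0 R, ENNReal.ofReal (β s ^ (2 * n - 1)) ≤ vol n R b := by
    unfold vol
    rw [← lintegral_const_mul _ (by fun_prop)]
    refine setLIntegral_mono' (μ := volume) measurableSet_Ioo fun s hs => ?_
    have h1 := power_mean (d := 2 * n - 1) (hβpos s hs.2) (by omega) (hBs s)
      (fun x => (hBpos s hs.2 x).le) hA (hβ2 s)
    have h2 : ∫⁻ x, ENNReal.ofReal (b (s, x) ^ (2 * n - 1)) ∂(σ n)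
        = ENNReal.ofReal (∫ x, B (s, x) ^ (2 * n - 1) ∂(σ n)) := by
      rw [ofReal_integral_eq_lintegral_ofReal
        (hint (fun x => B (s, x) ^ (2 * n - 1)) ((hBs s).pow _))
        (Filter.Eventually.of_forall fun x => pow_nonneg (hBpos s hs.2 x).le _)]
      refine lintegral_congr fun x => ?_
      rw [hBb s ⟨hs.1.le, hs.2⟩ x]
    rw [h2]
    have h3 : (σ n) univ = ENNReal.ofReal A := by
      rw [hA, Measure.real, ENNReal.ofReal_toReal (measure_ne_top _ _)]
    rw [h3, ← ENNReal.ofReal_mul hA0.le]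
    exact ENNReal.ofReal_le_ofReal h1
  have hcv : ∫⁻ w in Ioi (0 : ℝ), ENNReal.ofReal (f w ^ (2 * n - 1 + 1)) * wt (2 * n - 1 + 2) w ≤
      ∫⁻ s in Ioo 0 R, ENNReal.ofReal (β s ^ (2 * n - 1)) := by
    have hsub : T '' Ioi 0 ⊆ Ioo 0 R := by
      rintro _ ⟨w, hw, rfl⟩
      refine ⟨?_, hTR w⟩
      have := hTm (show (0 : ℝ) < w from hw)
      rwa [hT0] at this
    have h1 := lintegral_image_eq_lintegral_deriv_mul_of_monotoneOn (s := Ioi (0 : ℝ))
      (f := T) (f' := fun w => β (T w) * (q w)⁻¹) measurableSet_Ioi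
      (fun w _ => (hTd w).hasDerivWithinAt) (hTm.monotone.monotoneOn _)
      (fun s => ENNReal.ofReal (β s ^ (2 * n - 1)))
    refine le_trans (le_of_eq ?_) (lintegral_mono_set hsub)
    rw [h1]
    refine setLIntegral_congr_fun measurableSet_Ioi fun w _ => ?_
    have hb := hβpos (T w) (hTR w)
    have hq := q_pos w
    unfold wt
    rw [← ENNReal.ofReal_mul (by positivity), ← ENNReal.ofReal_mul (by positivity)]
    congr 1
    simp only [hf]
    rw [mul_pow, pow_succ (β (T w)), pow_succ (q w), pow_add (q w)]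
    field_simp
  calc (σ n) univ * ENNReal.ofReal (∫ θ in (0 : ℝ)..(π / 2), Real.cos θ ^ (2 * n - 1))
      ≤ (σ n) univ * ∫⁻ w in Ioi (0 : ℝ), wt (2 * n - 1 + 2) w := mul_le_mul_right hcos _
    _ ≤ (σ n) univ * ∫⁻ w in Ioi (0 : ℝ), ENNReal.ofReal (f w ^ (2 * n - 1 + 1)) *
          wt (2 * n - 1 + 2) w := mul_le_mul_right hrad _
    _ ≤ (σ n) univ * ∫⁻ s in Ioo 0 R, ENNReal.ofReal (β s ^ (2 * n - 1)) :=
        mul_le_mul_right hcv _
    _ ≤ _ := hvol

end Pool.Agent.FC640.CS
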