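import Mathlib

/-! # Rotations of odd spheres along the Hopf circles -/

set_option autoImplicit false
set_option maxHeartbeats 400000

open Real Set MeasureTheory Metric
open scoped ContDiff Pointwise

namespace Pool.Agent.FC640.CS

variable {n : ℕ}

/-- The Euclidean space of dimension `2 n`. -/
abbrev E (n : ℕ) : Type := EuclideanSpace ℝ (Fin n × Fin 2)

/-- The unit sphere of dimension `2 n - 1`. -/
abbrev Sph (n : ℕ) : Type := sphere (0 : E n) 1

/-- Multiplication by `i`. -/
noncomputable def J : E n →ₗ[ℝ] E n where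
  toFun x := WithLp.toLp 2 (fun i => if i.2 = 0 then -x (i.1, 1) else x (i.1, 0))
  map_add' x y := by
    ext ⟨i, j⟩
    fin_cases j
    · simp; ring
    · simp
  map_smul' c x := by
    ext ⟨i, j⟩
    fin_cases j <;> simp

lemma J_zero (x : E n) (i : Fin n) : J x (i, 0) = -x (i, 1) := by simp [J]

lemma J_one (x : E n) (i : Fin n) : J x (i, 1) = x (i, 0) := by simp [J]

lemma J_J (x : E n) : J (J x) = -x := by
  ext ⟨i, j⟩
  fin_cases j
  · show J (J x) (i, 0) = -x (i, 0)
    rw [J_zero, J_one]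
  · show J (J x) (i, 1) = -x (i, 1)
    rw [J_one, J_zero]

lemma norm_J (x : E n) : ‖J x‖ = ‖x‖ := by
  rw [EuclideanSpace.norm_eq, EuclideanSpace.norm_eq]
  congr 1
  rw [Fintype.sum_prod_type, Fintype.sum_prod_type]
  refine Finset.sum_congr rfl fun i _ => ?_
  rw [Fin.sum_univ_two, Fin.sum_univ_two, J_zero, J_one, norm_neg]
  ring

lemma inner_J (x : E n) : inner ℝ x (J x) = 0 := by
  rw [PiLp.inner_apply, Fintype.sum_prod_type]
  refine Finset.sum_eq_zero fun i _ => ?_
  rw [Fin.sum_univ_two, J_zero, J_one]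
  simp
  ring

lemma norm_rot (φ : ℝ) (x : E n) : ‖Real.cos φ • x + Real.sin φ • J x‖ = ‖x‖ := by
  have h : ‖Real.cos φ • x + Real.sin φ • J x‖ ^ 2 = ‖x‖ ^ 2 := by
    rw [norm_add_sq_real, real_inner_smul_left, real_inner_smul_right, inner_J, norm_smul,
      norm_smul, norm_J, mul_pow, mul_pow, Real.norm_eq_abs, Real.norm_eq_abs, sq_abs, sq_abs]
    linear_combination ‖x‖ ^ 2 * Real.cos_sq_add_sin_sq φ
  exact (pow_left_inj₀ (norm_nonneg _) (norm_nonneg _) two_ne_zero).1 h

/-- The rotation by the angle `φ`, a linear map. -/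
noncomputable def rotL (φ : ℝ) : E n →ₗ[ℝ] E n := Real.cos φ • LinearMap.id + Real.sin φ • J

lemma rotL_apply (φ : ℝ) (x : E n) : rotL φ x = Real.cos φ • x + Real.sin φ • J x := by
  simp only [rotL, LinearMap.add_apply, LinearMap.smul_apply, LinearMap.id_apply]

lemma norm_rotL (φ : ℝ) (x : E n) : ‖rotL φ x‖ = ‖x‖ := by
  rw [rotL_apply]; exact norm_rot φ x

/-- The rotation by the angle `φ`, a linear isometry. -/
noncomputable def rotI (φ : ℝ) : E n →ₗᵢ[ℝ] E n := ⟨rotL φ, norm_rotL φ⟩

/-- The rotation by the angle `φ`. -/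
noncomputable def rotE (φ : ℝ) : E n ≃ₗᵢ[ℝ] E n := (rotI φ).toLinearIsometryEquiv rfl

lemma rotE_apply (φ : ℝ) (x : E n) : rotE φ x = Real.cos φ • x + Real.sin φ • J x := by
  rw [← rotL_apply]
  rfl

/-- The rotation on the sphere. -/
noncomputable def rot (φ : ℝ) (x : Sph n) : Sph n :=
  ⟨rotE φ (x : E n), by
    rw [mem_sphere_zero_iff_norm, (rotE φ).norm_map]
    exact mem_sphere_zero_iff_norm.1 x.2⟩

lemma continuous_rot : Continuous (fun p : ℝ × Sph n => rot p.1 p.2) := by
  refine Continuous.subtype_mk ?_ _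
  simp only [rotE_apply]
  have hJ : Continuous (J : E n →ₗ[ℝ] E n) := J.continuous_of_finiteDimensional
  have h2 : Continuous (fun p : ℝ × Sph n => (p.2 : E n)) := continuous_subtype_val.comp continuous_snd
  exact ((Real.continuous_cos.comp continuous_fst).smul h2).add
    ((Real.continuous_sin.comp continuous_fst).smul (hJ.comp h2))

lemma continuous_rot_right (φ : ℝ) : Continuous (rot φ : Sph n → Sph n) :=
  Continuous.subtype_mk ((rotE φ).continuous.comp continuous_subtype_val) _

/-- The surface measure. -/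
noncomputable abbrev σ (n : ℕ) : Measure (Sph n) := (volume : Measure (E n)).toSphere

lemma map_rot (φ : ℝ) : (σ n).map (rot φ) = σ n := by
  have hc : Continuous (rot φ : Sph n → Sph n) := continuous_rot_right φ
  ext s hs
  rw [Measure.map_apply hc.measurable hs, Measure.toSphere_apply' _ (hc.measurable hs),
    Measure.toSphere_apply' _ hs]
  congr 1
  have h : Ioo (0 : ℝ) 1 • ((↑) '' (rot φ ⁻¹' s : Set (Sph n)) : Set (E n))
      = (rotE φ) ⁻¹' (Ioo (0 : ℝ) 1 • ((↑) '' s : Set (E n))) := by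
    ext z
    constructor
    · rintro ⟨r, hr, _, ⟨x, hx, rfl⟩, rfl⟩
      exact ⟨r, hr, _, ⟨rot φ x, hx, rfl⟩, ((rotE φ).map_smul r (x : E n)).symm⟩
    · rintro ⟨r, hr, _, ⟨y, hy, rfl⟩, hz⟩
      have hyn : ‖(rotE φ).symm (y : E n)‖ = 1 := by
        rw [LinearIsometryEquiv.norm_map]
        exact mem_sphere_zero_iff_norm.1 y.2
      refine ⟨r, hr, _, ⟨⟨(rotE φ).symm (y : E n), mem_sphere_zero_iff_norm.2 hyn⟩, ?_, rfl⟩, ?_⟩
      · have : rot φ ⟨(rotE φ).symm (y : E n), mem_sphere_zero_iff_norm.2 hyn⟩ = y := by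
          apply Subtype.ext
          exact (rotE φ).apply_symm_apply (y : E n)
        rw [mem_preimage, this]
        exact hy
      · show r • (rotE φ).symm (y : E n) = z
        apply (rotE φ).injective
        have h1 : rotE φ (r • (rotE φ).symm (y : E n)) = r • (y : E n) := by
          rw [(rotE φ).map_smul, (rotE φ).apply_symm_apply]
        rw [h1]
        exact hz
  rw [h]
  exact (rotE φ).measurePreserving.measure_preimage_emb
    (rotE φ).toHomeomorph.measurableEmbedding _

lemma integral_rot (φ : ℝ) {f : Sph n → ℝ} (hf : Continuous f) :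
    ∫ x, f (rot φ x) ∂(σ n) = ∫ x, f x ∂(σ n) := by
  have hc : Continuous (rot φ : Sph n → Sph n) := continuous_rot_right φ
  have h := integral_map (μ := σ n) (φ := rot φ) hc.measurable.aemeasurable (f := f)
    hf.aestronglyMeasurable
  rw [map_rot] at h
  exact h.symm

end Pool.Agent.FC640.CS
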